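import Mathlib
import Pool.Agent.Helper383.NI.Defs
import Pool.Agent.Helper383.NI.U0
import Pool.Agent.Helper383.NI.R2

set_option autoImplicit false

open Complex MeasureTheory Set Filter Topology

namespace Pool.Agent.Results.MP_8b4a1b_an.NormInflation

/-!
The plane `ℝ²` is `ℂ` (with its Lebesgue measure and its real inner product); a vector field
`u = (u₁, u₂)` is the function `u = u₁ + i u₂ : ℂ → ℂ`.
-/

/-- The square of the norm of `f = (f₁, f₂)` in `H^s(ℝ²)`: the integral of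
`(1 + |ξ|²)^s (|F f₁(ξ)|² + |F f₂(ξ)|²)`, where `F` is the Fourier transform (of functions which
are integrable in all uses below). -/
noncomputable def sobolevSq (s : ℝ) (f : ℂ → ℂ) : ENNReal :=
  ∫⁻ ξ : ℂ, ENNReal.ofReal ((1 + ‖ξ‖ ^ 2) ^ s) *
    (‖FourierTransform.fourier (fun z : ℂ => ((f z).re : ℂ)) ξ‖ₑ ^ 2
      + ‖FourierTransform.fourier (fun z : ℂ => ((f z).im : ℂ)) ξ‖ₑ ^ 2)

/-- The divergence `∂₁ u₁ + ∂₂ u₂`. -/
noncomputable def divergence (u : ℂ → ℂ) (z : ℂ) : ℝ :=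
  (fderiv ℝ u z 1).re + (fderiv ℝ u z I).im

/-- `u` is a smooth solution, with pressure `p`, of the incompressible Euler equations
`∂_t u + (u·∇)u + ∇p = 0`, `∇·u = 0` on `[0,T] × ℝ²`: at every time `u(t)` is in `H^∞`, `u` and
`∇u` are bounded, `u` and `∇p` are bounded in `L²` uniformly in time, and `u`, `∇u`, `∇p` are
jointly continuous. (`fderiv ℝ (u t) z (u t z)` is `(u·∇)u`.) -/
structure IsSmoothEuler (T : ℝ) (u : ℝ → ℂ → ℂ) (p : ℝ → ℂ → ℝ) : Prop where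
  smooth : ∀ t ∈ Icc 0 T, ContDiff ℝ (⊤ : ℕ∞) (u t)
  sobolev : ∀ t ∈ Icc 0 T, ∀ n : ℕ, MemLp (iteratedFDeriv ℝ n (u t)) 2
  bounded : ∃ C : ℝ, ∀ t ∈ Icc 0 T, (∀ z, ‖u t z‖ ≤ C ∧ ‖fderiv ℝ (u t) z‖ ≤ C) ∧
    ∫⁻ z : ℂ, ‖u t z‖ₑ ^ 2 ≤ ENNReal.ofReal C
  cont : ContinuousOn (fun q : ℝ × ℂ => u q.1 q.2) (Icc 0 T ×ˢ univ)
  cont_space : ContinuousOn (fun q : ℝ × ℂ => fderiv ℝ (u q.1) q.2) (Icc 0 T ×ˢ univ)
  pressure : ∀ t ∈ Icc 0 T, ContDiff ℝ 1 (p t)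
  pressure_cont : ContinuousOn (fun q : ℝ × ℂ => gradient (p q.1) q.2) (Icc 0 T ×ˢ univ)
  pressure_bound : ∃ C : ℝ, ∀ t ∈ Icc 0 T,
    ∫⁻ z : ℂ, ‖gradient (p t) z‖ₑ ^ 2 ≤ ENNReal.ofReal C
  divfree : ∀ t ∈ Icc 0 T, ∀ z, divergence (u t) z = 0
  momentum : ∀ t ∈ Icc 0 T, ∀ z, HasDerivWithinAt (fun τ => u τ z)
    (-(fderiv ℝ (u t) z (u t z)) - gradient (p t) z) (Icc 0 T) t

/-- Norm inflation in `H^s` for the planar incompressible Euler equations: for every `ε > 0` there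
are a divergence-free `u₀` in `H^∞` and a time `t` in `(0, ε)` such that the `H^s` norm of `u₀` is
less than `ε`, there is a smooth solution on `[0,t]` with data `u₀`, and every smooth solution `u`
on `[0,t]` with data `u₀` satisfies `‖u(t)‖_{H^s} > 1/ε`. -/
def HasNormInflation (s : ℝ) : Prop :=
  ∀ ε : ℝ, 0 < ε → ∃ (u₀ : ℂ → ℂ) (t : ℝ), 0 < t ∧ t < ε ∧
    ContDiff ℝ (⊤ : ℕ∞) u₀ ∧ Integrable u₀ ∧ (∀ n : ℕ, MemLp (iteratedFDeriv ℝ n u₀) 2) ∧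
    (∀ z, divergence u₀ z = 0) ∧
    sobolevSq s u₀ < ENNReal.ofReal (ε ^ 2) ∧
    (∃ u p, IsSmoothEuler t u p ∧ u 0 = u₀) ∧
    (∀ u p, IsSmoothEuler t u p → u 0 = u₀ →
      Integrable (u t) ∧ ENNReal.ofReal ((1 / ε) ^ 2) < sobolevSq s (u t))

theorem smooth_iff (T : ℝ) (u : ℝ → ℂ → ℂ) (p : ℝ → ℂ → ℝ) :
    IsSmoothEuler T u p ↔ Pool.Agent.Helper383.NI.JU0.IsHinfEuler T u p :=
  ⟨fun h => ⟨h.smooth, h.sobolev, h.bounded, h.cont, h.cont_space, h.pressure, h.pressure_cont,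
      h.pressure_bound, h.divfree, h.momentum⟩,
    fun h => ⟨h.smooth, h.sobolev, h.bounded, h.cont, h.cont_space, h.pressure, h.pressure_cont,
      h.pressure_bound, h.divfree, h.momentum⟩⟩

/-- For every `s` with `0 < s < 1` the planar incompressible Euler equations exhibit norm
inflation in `H^s(ℝ²)`. -/
theorem result : ∀ s : ℝ, 0 < s → s < 1 → HasNormInflation s := by
  intro s hs hs1 ε hε
  obtain ⟨u₀, t, ht, htε, h1, h2, h3, h4, h5, ⟨u, p, h6, h6'⟩, h7⟩ :=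
    Pool.Agent.Helper383.NI.JR2.norm_inflation s hs hs1 ε hε
  exact ⟨u₀, t, ht, htε, h1, h2, h3, h4, h5, ⟨u, p, (smooth_iff t u p).2 h6, h6'⟩,
    fun u p hu hu0 => h7 u p ((smooth_iff t u p).1 hu) hu0⟩

end Pool.Agent.Results.MP_8b4a1b_an.NormInflation
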